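import Pool.Agent.H8.TX.Targets
import Pool.Agent.H49.VZ.Base

/-!
# Module NPB: the minimal polynomial of a rational function
-/

set_option autoImplicit false

open MvPolynomial
open Pool.Agent.H12.ZD (pmap)
open Pool.Agent.H18.HIT Pool.Agent.H18.HX Pool.Agent.H18.VZ
open Pool.Agent.H8.ZA (HFam Const NA)
open Pool.Agent.H8.TD (lc dg Wsp Cop dh)
open Pool.Agent.H8.TX

namespace Pool.Agent.H58.TX

/-! ### Factors of homogeneous polynomials -/

theorem CCX_pow {R : Type} [CommRing R] (x : R) (n : ℕ) :
    (Polynomial.C (Polynomial.C x) * (Polynomial.X : Polynomial (Polynomial R))) ^ n =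
      Polynomial.C (Polynomial.C (x ^ n)) * Polynomial.X ^ n := by
  rw [mul_pow, Polynomial.C_pow, Polynomial.C_pow]

section hom

variable {σ k : Type} [Fintype σ] [Field k]

/-- the grading homomorphism `X i ↦ Z X i` -/
noncomputable def gh : MvPolynomial σ k →ₐ[k] Polynomial (Polynomial (MvPolynomial σ k)) :=
  aeval fun i => Polynomial.C (Polynomial.C (X i)) * Polynomial.X

theorem gh_hom {c : MvPolynomial σ k} {d : ℕ} (hc : c.IsHomogeneous d) :
    gh c = Polynomial.C (Polynomial.C c) * Polynomial.X ^ d := by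
  classical
  unfold gh
  rw [aeval_def, eval₂_eq']
  conv_rhs => rw [c.as_sum]
  rw [map_sum, map_sum, Finset.sum_mul]
  refine Finset.sum_congr rfl fun m hm => ?_
  have hd : ∑ i, m i = d := by
    have h1 := hc (mem_support_iff.1 hm)
    rw [← h1]
    simp [Finsupp.weight_apply, Finsupp.sum_fintype]
  have h2 : (∏ i, (Polynomial.C (Polynomial.C (X i : MvPolynomial σ k)) *
      (Polynomial.X : Polynomial (Polynomial (MvPolynomial σ k)))) ^ m i) =
      Polynomial.C (Polynomial.C (∏ i, (X i : MvPolynomial σ k) ^ m i)) * Polynomial.X ^ d := by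
    have h3 : ∀ i, (Polynomial.C (Polynomial.C (X i : MvPolynomial σ k)) *
        (Polynomial.X : Polynomial (Polynomial (MvPolynomial σ k)))) ^ m i =
        Polynomial.C (Polynomial.C ((X i : MvPolynomial σ k) ^ m i)) * Polynomial.X ^ m i := by
      intro i
      exact CCX_pow _ _
    rw [Finset.prod_congr rfl fun i _ => h3 i, Finset.prod_mul_distrib,
      Finset.prod_pow_eq_pow_sum, hd, map_prod, map_prod]
  rw [h2, monomial_eq, Finsupp.prod_fintype _ _ (by simp), map_mul, map_mul, mul_assoc]
  rfl

theorem gh_coeff (c : MvPolynomial σ k) (e : ℕ) :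
    (gh c).coeff e = Polynomial.C (homogeneousComponent e c) := by
  conv_lhs => rw [← sum_homogeneousComponent c]
  rw [map_sum, Polynomial.finsetSum_coeff]
  have h1 : ∀ i ∈ Finset.range (c.totalDegree + 1),
      (gh (homogeneousComponent i c)).coeff e =
        if i = e then Polynomial.C (homogeneousComponent e c) else 0 := by
    intro i _
    rw [gh_hom (homogeneousComponent_isHomogeneous i c), Polynomial.coeff_C_mul_X_pow]
    by_cases h : i = e
    · rw [if_pos h.symm, if_pos h, h]
    · rw [if_neg (fun h' => h h'.symm), if_neg h]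
  rw [Finset.sum_congr rfl h1, Finset.sum_ite_eq']
  split_ifs with h
  · rfl
  · rw [homogeneousComponent_eq_zero e c (by
      rw [Finset.mem_range] at h; omega), map_zero]

/-- the extension of the grading homomorphism to polynomials -/
noncomputable def GH : Polynomial (MvPolynomial σ k) →+*
    Polynomial (Polynomial (MvPolynomial σ k)) :=
  Polynomial.eval₂RingHom (R := MvPolynomial σ k) (S := Polynomial (Polynomial (MvPolynomial σ k)))
    (gh : MvPolynomial σ k →ₐ[k] Polynomial (Polynomial (MvPolynomial σ k))).toRingHom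
    (Polynomial.C Polynomial.X)

theorem GH_coeff (Φ : Polynomial (MvPolynomial σ k)) (e j : ℕ) :
    ((GH Φ).coeff e).coeff j = homogeneousComponent e (Φ.coeff j) := by
  unfold GH
  rw [Polynomial.coe_eval₂RingHom, Polynomial.eval₂_eq_sum_range, Polynomial.finsetSum_coeff,
    Polynomial.finsetSum_coeff]
  have h1 : ∀ i ∈ Finset.range (Φ.natDegree + 1),
      ((((gh : MvPolynomial σ k →ₐ[k] Polynomial (Polynomial (MvPolynomial σ k))).toRingHom
        (Φ.coeff i)) *
        (Polynomial.C Polynomial.X) ^ i).coeff e).coeff j =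
        if i = j then homogeneousComponent e (Φ.coeff j) else 0 := by
    intro i _
    rw [← map_pow, Polynomial.coeff_mul_C]
    change ((gh (Φ.coeff i)).coeff e * Polynomial.X ^ i).coeff j = _
    rw [gh_coeff, Polynomial.coeff_C_mul_X_pow]
    by_cases h : i = j
    · rw [if_pos h.symm, if_pos h, h]
    · rw [if_neg (fun h' => h h'.symm), if_neg h]
  rw [Finset.sum_congr rfl h1, Finset.sum_ite_eq']
  split_ifs with h
  · rfl
  · rw [Polynomial.coeff_eq_zero_of_natDegree_lt (by rw [Finset.mem_range] at h; omega),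
      map_zero]

theorem GH_inj (Φ : Polynomial (MvPolynomial σ k)) (h : GH Φ = 0) : Φ = 0 := by
  ext1 j
  rw [Polynomial.coeff_zero, ← sum_homogeneousComponent (Φ.coeff j)]
  refine Finset.sum_eq_zero fun e _ => ?_
  rw [← GH_coeff, h]
  simp

/-- factors of homogeneous polynomials are homogeneous -/
theorem factor_hom (Φ G : Polynomial (MvPolynomial σ k)) (m : ℕ) (hne : Φ * G ≠ 0)
    (hN : ∀ j, ((Φ * G).coeff j).IsHomogeneous m) :
    ∃ D, D ≤ m ∧ ∀ j, (Φ.coeff j).IsHomogeneous D := by
  have hΦ : Φ ≠ 0 := left_ne_zero_of_mul hne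
  have hG : G ≠ 0 := right_ne_zero_of_mul hne
  have hΦ' : GH Φ ≠ 0 := fun h => hΦ (GH_inj Φ h)
  have hG' : GH G ≠ 0 := fun h => hG (GH_inj G h)
  have hcoef : ∀ e, e ≠ m → (GH (Φ * G)).coeff e = 0 := by
    intro e he
    ext1 j
    rw [GH_coeff, Polynomial.coeff_zero]
    exact (homogeneousComponent_of_mem (hN j)).trans (if_neg he)
  have hne' : GH (Φ * G) ≠ 0 := fun h => hne (GH_inj _ h)
  have hdeg : (GH (Φ * G)).natDegree = m := by
    by_contra h
    exact hne' (Polynomial.leadingCoeff_eq_zero.1 (hcoef _ h))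
  have htr : (GH (Φ * G)).natTrailingDegree = m := by
    by_contra h
    exact hne' (Polynomial.trailingCoeff_eq_zero.1 (hcoef _ h))
  rw [map_mul] at hdeg htr
  rw [Polynomial.natDegree_mul hΦ' hG'] at hdeg
  rw [Polynomial.natTrailingDegree_mul hΦ' hG'] at htr
  have h1 := Polynomial.natTrailingDegree_le_natDegree (GH Φ)
  have h2 := Polynomial.natTrailingDegree_le_natDegree (GH G)
  have h3 : (GH Φ).natTrailingDegree = (GH Φ).natDegree := by omega
  refine ⟨(GH Φ).natDegree, by omega, fun j => ?_⟩
  have h4 : ∀ e, e ≠ (GH Φ).natDegree → homogeneousComponent e (Φ.coeff j) = 0 := by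
    intro e he
    rw [← GH_coeff]
    rcases lt_or_gt_of_ne he with h | h
    · have h6 : (GH Φ).coeff e = 0 :=
        Polynomial.coeff_eq_zero_of_lt_natTrailingDegree (by rw [h3]; exact h)
      rw [h6, Polynomial.coeff_zero]
    · have h6 : (GH Φ).coeff e = 0 := Polynomial.coeff_eq_zero_of_natDegree_lt h
      rw [h6, Polynomial.coeff_zero]
  have h5 : Φ.coeff j = homogeneousComponent (GH Φ).natDegree (Φ.coeff j) := by
    conv_lhs => rw [← sum_homogeneousComponent (Φ.coeff j)]
    by_cases h : (GH Φ).natDegree ∈ Finset.range ((Φ.coeff j).totalDegree + 1)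
    · exact Finset.sum_eq_single_of_mem _ h fun e _ he => h4 e he
    · rw [Finset.sum_eq_zero (fun e he => h4 e (fun h' => h (h' ▸ he)))]
      rw [homogeneousComponent_eq_zero _ _ (by rw [Finset.mem_range] at h; omega)]
  rw [h5]
  exact homogeneousComponent_isHomogeneous _ _

end hom

/-- an irreducible factor which vanishes -/
theorem irr_factor {R K : Type} [CommRing R] [IsDomain R] [UniqueFactorizationMonoid R] [Field K]
    (ev : R →+* K) (N : R) (hN : N ≠ 0) (h0 : ev N = 0) :
    ∃ Φ G : R, Irreducible Φ ∧ N = Φ * G ∧ ev Φ = 0 := by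
  revert h0
  induction N using WfDvdMonoid.induction_on_irreducible with
  | zero => exact absurd rfl hN
  | unit u hu =>
    intro h0
    exact absurd h0 (hu.map ev).ne_zero
  | mul a i ha hi ih =>
    intro h0
    rw [map_mul] at h0
    rcases mul_eq_zero.1 h0 with h | h
    · exact ⟨i, a, hi, rfl, h⟩
    · obtain ⟨Φ, G, h1, h2, h3⟩ := ih ha h
      exact ⟨Φ, i * G, h1, by rw [h2]; ring, h3⟩

theorem clear_den {K : Type} [Field K] (x p q : K) (n j : ℕ) (hj : j ≤ n) (hq : q ≠ 0) :
    x * (p ^ j * q ^ (n - j)) = q ^ n * (x * (p / q) ^ j) := by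
  have e1 : q ^ n = q ^ (n - j) * q ^ j := by rw [← pow_add, Nat.sub_add_cancel hj]
  have e2 : q ^ j ≠ 0 := pow_ne_zero _ hq
  rw [div_pow, e1]
  field_simp

/-- the minimal polynomial of a rational function -/
theorem pf_NPB : T_NPB := by
  classical
  intro k _ _ r a P p q Nf hP hq hNh hNr hrel hsp
  -- the field
  have hprime : Prime P := hP.irr.prime
  have hpi : (Ideal.span {P}).IsPrime := (Ideal.span_singleton_prime hprime.ne_zero).2 hprime
  let A : Type := Po 5 k ⧸ Ideal.span {P}
  let K : Type := FractionRing A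
  let π : Po 5 k →+* A := Ideal.Quotient.mk _
  let ια : A →+* K := algebraMap A K
  have hια : Function.Injective ια := IsFractionRing.injective A K
  have hzero : ∀ c : Po 5 k, ια (π c) = 0 ↔ P ∣ c := by
    intro c
    rw [map_eq_zero_iff ια hια, Ideal.Quotient.eq_zero_iff_mem, Ideal.mem_span_singleton]
  let φ : Po 4 k →+* K := (ια.comp π).comp (rename Fin.succ : Po 4 k →ₐ[k] Po 5 k).toRingHom
  have hφ : ∀ c : Po 4 k, φ c = ια (π (up c)) := fun c => rfl
  set pb : K := ια (π p) with hpb
  set qb : K := ια (π q) with hqb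
  have hqb0 : qb ≠ 0 := fun h => hq ((hzero q).1 h)
  let ev : Polynomial (Po 4 k) →+* K := Polynomial.eval₂RingHom φ (pb / qb)
  -- values
  have hval : ∀ (n : ℕ) (C : ℕ → Po 4 k),
      P ∣ ∑ j ∈ Finset.range (n + 1), up (C j) * (p ^ j * q ^ (n - j)) ↔
        ev (∑ j ∈ Finset.range (n + 1), Polynomial.C (C j) * Polynomial.X ^ j) = 0 := by
    intro n C
    have h1 : ια (π (∑ j ∈ Finset.range (n + 1), up (C j) * (p ^ j * q ^ (n - j)))) =
        qb ^ n * ev (∑ j ∈ Finset.range (n + 1), Polynomial.C (C j) * Polynomial.X ^ j) := by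
      rw [map_sum, map_sum, map_sum, Finset.mul_sum]
      refine Finset.sum_congr rfl fun j hj => ?_
      have hj' : j ≤ n := by rw [Finset.mem_range] at hj; omega
      change ια (π (up (C j) * (p ^ j * q ^ (n - j)))) =
        qb ^ n * Polynomial.eval₂ φ (pb / qb) (Polynomial.C (C j) * Polynomial.X ^ j)
      rw [Polynomial.eval₂_mul, Polynomial.eval₂_C, Polynomial.eval₂_X_pow, hφ]
      simp only [map_mul, map_pow]
      exact clear_den _ pb qb n j hj' hqb0
    rw [← hzero, h1, mul_eq_zero]
    constructor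
    · rintro (h | h)
      · exact absurd h (pow_ne_zero _ hqb0)
      · exact h
    · intro h; exact Or.inr h
  set N : Polynomial (Po 4 k) :=
    ∑ j ∈ Finset.range (r + 1), Polynomial.C (Nf j) * Polynomial.X ^ j with hNdef
  have hNcoeff : ∀ j, N.coeff j = if j ≤ r then Nf j else 0 := by
    intro j
    rw [hNdef, Polynomial.finsetSum_coeff]
    simp_rw [Polynomial.coeff_C_mul_X_pow]
    rw [Finset.sum_ite_eq]
    simp only [Finset.mem_range]
    by_cases h : j ≤ r
    · rw [if_pos h, if_pos (by omega)]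
    · rw [if_neg h, if_neg (by omega)]
  have hN0 : N ≠ 0 := by
    intro h
    have h1 := hNcoeff r
    rw [h, if_pos le_rfl, Polynomial.coeff_zero] at h1
    exact hNr h1.symm
  have hNdeg : N.natDegree = r := by
    refine le_antisymm ?_ (Polynomial.le_natDegree_of_ne_zero ?_)
    · rw [Polynomial.natDegree_le_iff_coeff_eq_zero]
      intro j hj
      rw [hNcoeff, if_neg (by omega)]
    · rw [hNcoeff, if_pos le_rfl]; exact hNr
  have hev : ev N = 0 := (hval r Nf).1 hrel
  obtain ⟨Φ, G, hirr, hNG, hΦ0⟩ := irr_factor ev N hN0 hev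
  have hΦne : Φ ≠ 0 := hirr.ne_zero
  have hGne : G ≠ 0 := by
    rintro rfl
    rw [mul_zero] at hNG
    exact hN0 hNG
  obtain ⟨D, hD, hDh⟩ := factor_hom Φ G (r * a) (by rw [← hNG]; exact hN0) (by
    intro j
    rw [← hNG, hNcoeff]
    split_ifs
    · exact hNh j
    · exact isHomogeneous_zero _ _ _)
  have hsum : (∑ j ∈ Finset.range (Φ.natDegree + 1),
      Polynomial.C (Φ.coeff j) * Polynomial.X ^ j) = Φ :=
    (Polynomial.as_sum_range_C_mul_X_pow Φ).symm
  refine ⟨D, Φ.natDegree, fun j => Φ.coeff j, Nf r, hD, ?_, hDh, ?_, ?_, ?_, ?_, hNr, ?_⟩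
  · by_contra hn
    have hn0 : Φ.natDegree = 0 := by omega
    obtain ⟨c, hc⟩ := Polynomial.natDegree_eq_zero.1 hn0
    have hc0 : c ≠ 0 := by
      rintro rfl
      rw [map_zero] at hc
      exact hΦne hc.symm
    have h1 : ev Φ = φ c := by
      rw [← hc]
      exact Polynomial.eval₂_C _ _
    rw [h1, hφ, hzero] at hΦ0
    exact Pool.Agent.H49.VZ.not_dvd_up hP hc0 hΦ0
  · exact Polynomial.leadingCoeff_ne_zero.2 hΦne
  · intro j hj
    exact Polynomial.coeff_eq_zero_of_natDegree_lt hj
  · rw [hsum]
    exact hirr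
  · rw [hval, hsum]
    exact hΦ0
  · intro w hw u hu
    have hid := hsp w u hu
    set qj : Fin r → k := fun j => eval (Fin.cons (u j) w : Fin 5 → k) q with hqj
    set pj : Fin r → k := fun j => eval (Fin.cons (u j) w : Fin 5 → k) p with hpj
    have hmapN : N.map (eval w) =
        ∑ j ∈ Finset.range (r + 1), Polynomial.C (eval w (Nf j)) * Polynomial.X ^ j := by
      rw [hNdef, Polynomial.map_sum]
      refine Finset.sum_congr rfl fun j _ => ?_
      rw [Polynomial.map_mul, Polynomial.map_C, Polynomial.map_pow, Polynomial.map_X]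
    have hmapN' : N.map (eval w) = ∏ j, (Polynomial.C (qj j) * Polynomial.X -
        Polynomial.C (pj j)) := by
      rw [hmapN]; exact hid
    have hlc : eval w (Nf r) = ∏ j, qj j := by
      have h1 : (N.map (eval w)).coeff r = eval w (Nf r) := by
        rw [Polynomial.coeff_map, hNcoeff, if_pos le_rfl]
      have h2 : (∏ j, (Polynomial.C (qj j) * Polynomial.X -
          Polynomial.C (pj j))).coeff ((Finset.univ : Finset (Fin r)).card * 1) = ∏ j, qj j := by
        rw [Polynomial.coeff_prod_of_natDegree_le _ _ 1]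
        · refine Finset.prod_congr rfl fun j _ => ?_
          simp [Polynomial.coeff_C]
        · intro j _
          exact (Polynomial.natDegree_sub_le _ _).trans
            (max_le ((Polynomial.natDegree_C_mul_le _ _).trans Polynomial.natDegree_X_le)
              (by rw [Polynomial.natDegree_C]; omega))
      rw [← h1, hmapN', ← h2]
      simp
    have hq0 : ∀ j, qj j ≠ 0 := by
      intro j hj
      apply hw
      rw [hlc]
      exact Finset.prod_eq_zero (Finset.mem_univ j) hj
    refine ⟨hq0, ?_, ?_⟩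
    · have h1 : Nf r = Φ.leadingCoeff * G.leadingCoeff := by
        rw [← Polynomial.leadingCoeff_mul, ← hNG, Polynomial.leadingCoeff, hNdeg, hNcoeff,
          if_pos le_rfl]
      intro h
      apply hw
      rw [h1, map_mul]
      have h2 : eval w Φ.leadingCoeff = 0 := h
      rw [h2, zero_mul]
    · have h1 : (∑ j ∈ Finset.range (Φ.natDegree + 1),
          Polynomial.C (eval w (Φ.coeff j)) * Polynomial.X ^ j) = Φ.map (eval w) := by
        conv_rhs => rw [← hsum]
        rw [Polynomial.map_sum]
        refine Finset.sum_congr rfl fun j _ => ?_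
        rw [Polynomial.map_mul, Polynomial.map_C, Polynomial.map_pow, Polynomial.map_X]
      rw [h1]
      have h2 : Φ.map (eval w) ∣ N.map (eval w) := by
        rw [hNG, Polynomial.map_mul]
        exact dvd_mul_right _ _
      have h3 : N.map (eval w) = Polynomial.C (∏ j, qj j) *
          ∏ j, (Polynomial.X - Polynomial.C (pj j / qj j)) := by
        rw [hmapN', map_prod, ← Finset.prod_mul_distrib]
        refine Finset.prod_congr rfl fun j _ => ?_
        rw [mul_sub, ← Polynomial.C_mul, mul_div_cancel₀ _ (hq0 j)]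
      rw [h3] at h2
      have h4 : IsUnit (Polynomial.C (∏ j, qj j)) := by
        rw [Polynomial.isUnit_C]
        exact (Finset.prod_ne_zero_iff.2 fun j _ => hq0 j).isUnit
      exact (h4.dvd_mul_left).1 h2

end Pool.Agent.H58.TX
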